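import Pool.Agent.H43.BZ.Stm

set_option autoImplicit false

/-!
BZ CON (helper215 for helper43): the first contact argument along characteristics.
-/

open MeasureTheory Metric Set Filter Topology
open scoped RealInnerProductSpace ENNReal

namespace Pool.Agent.H215.BZ

open Pool.Agent.H43.BZ

/-- the derivative at a contact from below on the left -/
theorem deriv_nonneg {g : ℝ → ℝ} {g' : ℝ} (h : HasDerivAt g g' 0) (h0 : g 0 = 0)
    (hl : ∀ᶠ τ in 𝓝[<] (0 : ℝ), g τ ≤ 0) : 0 ≤ g' := by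
  have h1 : Tendsto (slope g 0) (𝓝[<] (0 : ℝ)) (𝓝 g') :=
    (hasDerivWithinAt_iff_tendsto_slope' (by simp)).1 (h.hasDerivWithinAt (s := Iio 0))
  refine ge_of_tendsto h1 ?_
  filter_upwards [hl, self_mem_nhdsWithin] with τ hτ hτ0
  rw [slope_def_field, h0]
  have h2 : τ < 0 := hτ0
  exact div_nonneg_of_nonpos (by linarith) (by linarith)

/-- reduction to the cube -/
theorem exists_cube {d : ℕ} {g : E d → ℝ} (hg : ∀ x, ∀ i, g (x + EuclideanSpace.single i 1) = g x)
    (n : Fin d → ℤ) (x : E d) : ∀ s : Finset (Fin d),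
    g (x + ∑ i ∈ s, ((n i : ℝ)) • EuclideanSpace.single i (1 : ℝ)) = g x := by
  classical
  have h1 : ∀ (i : Fin d) (y : E d) (k : ℤ), g (y + (k : ℝ) • EuclideanSpace.single i (1 : ℝ)) = g y := by
    intro i y k
    have hp : Function.Periodic (fun s : ℝ => g (y + s • EuclideanSpace.single i (1 : ℝ))) 1 := by
      intro s
      show g (y + (s + 1) • EuclideanSpace.single i (1 : ℝ)) = g (y + s • EuclideanSpace.single i (1 : ℝ))
      rw [add_smul, one_smul, ← add_assoc]
      exact hg _ i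
    have h2 := (hp.int_mul k) 0
    simp only [zero_add, mul_one, zero_smul, add_zero] at h2
    exact h2
  intro s
  induction s using Finset.induction_on with
  | empty => simp
  | insert i s hi ih =>
    rw [Finset.sum_insert hi, add_comm (((n i : ℝ)) • _), ← add_assoc, h1, ih]

/-- the representative in the cube -/
noncomputable def fr {d : ℕ} (x : E d) : E d := WithLp.toLp 2 fun i => Int.fract (x i)

theorem fr_eq {d : ℕ} (x : E d) :
    x = fr x + ∑ i, ((⌊x i⌋ : ℤ) : ℝ) • EuclideanSpace.single i (1 : ℝ) := by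
  ext j
  have h1 : (∑ i, ((⌊x i⌋ : ℤ) : ℝ) • EuclideanSpace.single i (1 : ℝ) : E d) j = (⌊x j⌋ : ℝ) := by
    rw [WithLp.ofLp_sum, Finset.sum_apply, Finset.sum_eq_single j]
    · simp
    · intro b _ hb
      simp [hb.symm]
    · intro h
      exact absurd (Finset.mem_univ j) h
  rw [PiLp.add_apply, h1]
  show x j = Int.fract (x j) + _
  rw [Int.fract]
  ring

theorem fr_norm {d : ℕ} (x : E d) : ‖fr x‖ ≤ Real.sqrt d := by
  rw [EuclideanSpace.norm_eq]
  refine Real.sqrt_le_sqrt ?_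
  calc ∑ i, ‖(fr x) i‖ ^ 2 ≤ ∑ i : Fin d, (1 : ℝ) := by
        refine Finset.sum_le_sum fun i _ => ?_
        have h1 : (fr x) i = Int.fract (x i) := rfl
        rw [h1, Real.norm_eq_abs, abs_of_nonneg (Int.fract_nonneg _)]
        have h2 := (Int.fract_lt_one (x i)).le
        have h3 := Int.fract_nonneg (x i)
        nlinarith
    _ = d := by simp

theorem CON : S_CON := by
  intro d T f D W m N hT hN hW hWc hf hper hdec hder hm hm0 hcon h0 t₁ ht₁ x₁ v₁
  -- periodicity
  have hcube : ∀ t ∈ Ico 0 T, ∀ x v, f t (fr x) v = f t x v := by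
    intro t ht x v
    have h1 := exists_cube (g := fun y => f t y v) (fun y i => hper t ht y v i)
      (fun i => ⌊x i⌋) (fr x) Finset.univ
    have h2 := fr_eq x
    simp only at h1
    rw [← h2] at h1
    exact h1.symm
  have hmi : ∀ t ∈ Ico 0 T, IntervalIntegrable m volume 0 t := by
    intro t ht
    refine ContinuousOn.intervalIntegrable ?_
    rw [uIcc_of_le ht.1]
    exact hm.mono fun s hs => ⟨hs.1, hs.2.trans_lt ht.2⟩
  -- the claim
  have key : ∀ ε : ℝ, 0 < ε → f t₁ x₁ v₁ ≤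
      (N + ε) * Real.exp ((∫ τ in (0:ℝ)..t₁, m τ) + ε * t₁) * W v₁ := by
    intro ε hε
    by_contra hlt
    push Not at hlt
    set A : ℝ → ℝ := fun t => (N + ε) * Real.exp ((∫ τ in (0:ℝ)..t, m τ) + ε * t) with hA
    have hApos : ∀ t, 0 < A t := fun t => by
      rw [hA]
      positivity
    have hAge : ∀ t ∈ Ico 0 T, N + ε ≤ A t := by
      intro t ht
      have h1 : 0 ≤ ∫ τ in (0:ℝ)..t, m τ := by
        refine intervalIntegral.integral_nonneg ht.1 fun s hs => hm0 s ⟨hs.1, hs.2.trans_lt ht.2⟩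
      have h2 : 1 ≤ Real.exp ((∫ τ in (0:ℝ)..t, m τ) + ε * t) := by
        rw [← Real.exp_zero]
        refine Real.exp_le_exp.2 ?_
        have := mul_nonneg hε.le ht.1
        linarith
      have h3 : 0 < N + ε := by linarith
      rw [hA]
      simp only
      nlinarith
    have hMc : ContinuousOn (fun t => ∫ τ in (0:ℝ)..t, m τ) (Icc 0 t₁) := by
      have h1 := intervalIntegral.continuousOn_primitive_interval (f := m) (μ := volume)
        (a := 0) (b := t₁) (by
          rw [uIcc_of_le ht₁.1]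
          exact (hm.mono fun s hs => ⟨hs.1, hs.2.trans_lt ht₁.2⟩).integrableOn_Icc)
      rwa [uIcc_of_le ht₁.1] at h1
    have hAc : ContinuousOn A (Icc 0 t₁) := by
      refine continuousOn_const.mul ((hMc.add ?_).rexp)
      exact (continuous_const.mul continuous_id).continuousOn
    obtain ⟨R, hR⟩ := hdec t₁ ht₁ (ε / 2) (half_pos hε)
    -- the compact set
    set K₀ : Set (ℝ × E d × E d) := Icc 0 t₁ ×ˢ closedBall 0 (Real.sqrt d) ×ˢ closedBall 0 R
      with hK₀
    have hK₀c : IsCompact K₀ :=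
      isCompact_Icc.prod ((isCompact_closedBall _ _).prod (isCompact_closedBall _ _))
    have hsub : K₀ ⊆ Ico 0 T ×ˢ univ := by
      rintro ⟨t, x, v⟩ ⟨ht, -⟩
      exact ⟨⟨ht.1, ht.2.trans_lt ht₁.2⟩, mem_univ _⟩
    have hFc : ContinuousOn (fun p : ℝ × E d × E d => f p.1 p.2.1 p.2.2 - A p.1 * W p.2.2) K₀ := by
      refine (hf.mono hsub).sub (ContinuousOn.mul ?_ ?_)
      · exact hAc.comp continuousOn_fst fun p hp => hp.1
      · exact (hWc.comp (continuous_snd.comp continuous_snd)).continuousOn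
    set K : Set (ℝ × E d × E d) := K₀ ∩
      (fun p : ℝ × E d × E d => f p.1 p.2.1 p.2.2 - A p.1 * W p.2.2) ⁻¹' Ici 0 with hK
    have hKcl : IsClosed K := hFc.preimage_isClosed_of_isClosed hK₀c.isClosed isClosed_Ici
    have hKc : IsCompact K := hK₀c.of_isClosed_subset hKcl inter_subset_left
    -- points of contact are in `K`
    have hinK : ∀ t ∈ Icc 0 t₁, ∀ x v, A t * W v ≤ f t x v → (t, fr x, v) ∈ K := by
      intro t ht x v h
      have ht' : t ∈ Ico 0 T := ⟨ht.1, ht.2.trans_lt ht₁.2⟩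
      refine ⟨⟨ht, ?_, ?_⟩, ?_⟩
      · rw [mem_closedBall_zero_iff]
        exact fr_norm x
      · rw [mem_closedBall_zero_iff]
        by_contra hv
        push Not at hv
        have h1 := hR t ht x v hv.le
        have h2 := hAge t ht'
        have h3 := hW v
        nlinarith
      · show 0 ≤ f t (fr x) v - A t * W v
        rw [hcube t ht']
        linarith
    have hne : K.Nonempty := ⟨_, hinK t₁ ⟨ht₁.1, le_rfl⟩ x₁ v₁ hlt.le⟩
    obtain ⟨⟨t₀, x₀, v₀⟩, hp, hmin⟩ := hKc.exists_isMinOn hne continuous_fst.continuousOn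
    have ht₀ : t₀ ∈ Icc 0 t₁ := hp.1.1
    have ht₀T : t₀ ∈ Ico 0 T := ⟨ht₀.1, ht₀.2.trans_lt ht₁.2⟩
    have hge : A t₀ * W v₀ ≤ f t₀ x₀ v₀ := by
      have h1 : 0 ≤ f t₀ x₀ v₀ - A t₀ * W v₀ := hp.2
      linarith
    have hbefore : ∀ t, 0 ≤ t → t < t₀ → ∀ x v, f t x v < A t * W v := by
      intro t h1 h2 x v
      by_contra hc
      push Not at hc
      have h3 := hinK t ⟨h1, h2.le.trans ht₀.2⟩ x v hc
      have h4 : t₀ ≤ t := hmin h3
      linarith
    have ht₀pos : 0 < t₀ := by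
      rcases ht₀.1.lt_or_eq with h | h
      · exact h
      · exfalso
        rw [← h] at hge
        have h1 := h0 x₀ v₀
        have h2 : A 0 = N + ε := by
          rw [hA]
          simp
        rw [h2] at hge
        have h3 := hW v₀
        nlinarith
    have ht₀I : t₀ ∈ Ioo 0 T := ⟨ht₀pos, ht₀T.2⟩
    -- at the contact time
    have hAd : HasDerivAt A (A t₀ * (m t₀ + ε)) t₀ := by
      have hca : ContinuousAt m t₀ := hm.continuousAt (Ico_mem_nhds ht₀pos ht₀T.2)
      have h1 : HasDerivAt (fun u => ∫ τ in (0:ℝ)..u, m τ) (m t₀) t₀ :=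
        intervalIntegral.integral_hasDerivAt_right (hmi t₀ ht₀T)
          (ContinuousOn.stronglyMeasurableAtFilter isOpen_Ioo
            (hm.mono fun s hs => ⟨hs.1.le, hs.2⟩) t₀ ht₀I) hca
      have h2 : HasDerivAt (fun t : ℝ => ε * t) ε t₀ := by
        simpa using (hasDerivAt_id t₀).const_mul ε
      have h3 := ((h1.add h2).exp).const_mul (N + ε)
      have h4 : A t₀ * (m t₀ + ε) = (N + ε) * (Real.exp ((∫ τ in (0:ℝ)..t₀, m τ) + ε * t₀) *
          (m t₀ + ε)) := by
        rw [hA]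
        ring
      rw [h4]
      exact h3
    have hAcont : ContinuousAt A t₀ := hAd.continuousAt
    have hle : ∀ x v, f t₀ x v ≤ A t₀ * W v := by
      intro x v
      have h1 : ContinuousWithinAt (fun t => f t x v) (Ico 0 T) t₀ := by
        have h2 := hf (t₀, x, v) ⟨ht₀T, mem_univ _⟩
        have h3 : ContinuousWithinAt (fun t : ℝ => ((t, x, v) : ℝ × E d × E d)) (Ico 0 T) t₀ :=
          (Continuous.continuousWithinAt (by fun_prop))
        exact ContinuousWithinAt.comp (g := fun p : ℝ × E d × E d => f p.1 p.2.1 p.2.2)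
          (f := fun t : ℝ => ((t, x, v) : ℝ × E d × E d)) (x := t₀)
          (t := Ico 0 T ×ˢ univ) h2 h3 fun s hs => ⟨hs, mem_univ _⟩
      have h2 : ContinuousAt (fun t => f t x v) t₀ := h1.continuousAt (Ico_mem_nhds ht₀pos ht₀T.2)
      have h3 : Tendsto (fun t => f t x v) (𝓝[<] t₀) (𝓝 (f t₀ x v)) :=
        h2.tendsto.mono_left nhdsWithin_le_nhds
      have h4 : Tendsto (fun t => A t * W v) (𝓝[<] t₀) (𝓝 (A t₀ * W v)) :=
        (hAcont.tendsto.mono_left nhdsWithin_le_nhds).mul_const _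
      refine le_of_tendsto_of_tendsto h3 h4 ?_
      have h5 : Ioo 0 t₀ ∈ 𝓝[<] t₀ := Ioo_mem_nhdsLT ht₀pos
      filter_upwards [h5] with t ht
      exact (hbefore t ht.1.le ht.2 x v).le
    have heq : f t₀ x₀ v₀ = A t₀ * W v₀ := le_antisymm (hle x₀ v₀) hge
    have hD := hcon t₀ ht₀I x₀ v₀ (A t₀) (hApos t₀) (hle x₀) heq
    -- the derivative along the characteristic
    have hg : HasDerivAt (fun τ : ℝ => f (t₀ + τ) (x₀ + τ • v₀) v₀ - A (t₀ + τ) * W v₀)
        (D t₀ x₀ v₀ - A t₀ * (m t₀ + ε) * W v₀) 0 := by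
      refine (hder t₀ ht₀I x₀ v₀).sub (HasDerivAt.mul_const ?_ _)
      have h1 : HasDerivAt A (A t₀ * (m t₀ + ε)) (t₀ + 0) := by rw [add_zero]; exact hAd
      exact h1.comp_const_add t₀ 0
    have hg0 := deriv_nonneg hg (by
      simp only [add_zero, zero_smul]
      rw [heq, sub_self]) (by
      have h5 : Ioo (-t₀) 0 ∈ 𝓝[<] (0 : ℝ) := Ioo_mem_nhdsLT (by linarith)
      filter_upwards [h5] with τ hτ
      have h6 := hbefore (t₀ + τ) (by linarith [hτ.1]) (by linarith [hτ.2]) (x₀ + τ • v₀) v₀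
      linarith)
    have h7 : 0 < ε * (A t₀ * W v₀) := mul_pos hε (mul_pos (hApos t₀) (hW v₀))
    nlinarith
  -- the limit `ε → 0`
  have hlim : Tendsto (fun ε : ℝ => (N + ε) * Real.exp ((∫ τ in (0:ℝ)..t₁, m τ) + ε * t₁) * W v₁)
      (𝓝[>] 0) (𝓝 (N * Real.exp (∫ τ in (0:ℝ)..t₁, m τ) * W v₁)) := by
    have h1 : Continuous fun ε : ℝ => (N + ε) * Real.exp ((∫ τ in (0:ℝ)..t₁, m τ) + ε * t₁) * W v₁ := by
      fun_prop
    have h2 := h1.tendsto 0
    simp only [add_zero, zero_mul] at h2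
    exact h2.mono_left nhdsWithin_le_nhds
  refine ge_of_tendsto hlim ?_
  filter_upwards [self_mem_nhdsWithin] with ε hε
  exact key ε hε

end Pool.Agent.H215.BZ
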